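import Mathlib
import Pool.Agent.Helper99.CT.Words

/-! Project CT, packet CRO: crossing letters of a pure torsion word do not both occur an odd
number of times. -/

set_option autoImplicit false

namespace Pool.Agent.Helper67.CT

open Pool.Agent.Helper99.CT

variable {n : ℕ}

open Classical in
/-- The reflection of the line attached to the set `I` by the crossing pair `(S, T)`. -/
noncomputable def phi (I S T : Finset (Fin n)) (z : ℤ) : ℤ :=
  if Comp S T then z else if I = S then -z else if I = T then 1 - z else z

theorem phi_phi (I S T : Finset (Fin n)) (z : ℤ) : phi I S T (phi I S T z) = z := by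
  unfold phi
  split_ifs <;> ring

theorem phi_mv (π : Equiv.Perm (Fin n)) (I S T : Finset (Fin n)) (z : ℤ) :
    phi (mv π I) (mv π S) (mv π T) z = phi I S T z := by
  unfold phi
  by_cases h : Comp S T
  · rw [if_pos h, if_pos ((comp_mv π S T).2 h)]
  · rw [if_neg h, if_neg fun h2 => h ((comp_mv π S T).1 h2)]
    simp only [(mv_injective π).eq_iff]

theorem phi_comm {I J : Finset (Fin n)} (h : Comp I J) (S T : Finset (Fin n)) (z : ℤ) :
    phi I S T (phi J S T z) = phi J S T (phi I S T z) := by
  by_cases hST : Comp S T
  · simp [phi, hST]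
  by_cases hIS : I = S
  · subst hIS
    by_cases hJI : J = I
    · subst hJI; rfl
    · have hJT : J ≠ T := fun h2 => hST (h2 ▸ h)
      simp [phi, hST, hJI, hJT]
  by_cases hIT : I = T
  · subst hIT
    have hJS : J ≠ S := fun h2 => hST (comp_symm (h2 ▸ h))
    by_cases hJI : J = I
    · subst hJI; rfl
    · simp [phi, hST, hJS, hJI, hIS]
  simp [phi, hST, hIS, hIT]

/-- The space on which the cactus group acts. -/
abbrev P (n : ℕ) : Type := ℤ × Finset (Fin n) × Finset (Fin n)

/-- The action of a generator. -/
noncomputable def act (g : Gen n) (x : P n) : P n :=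
  (phi (pts g) (mv (flip g) x.2.1) (mv (flip g) x.2.2) x.1, mv (flip g) x.2.1, mv (flip g) x.2.2)

theorem mem_pts (g : Gen n) (i : Fin n) : i ∈ pts g ↔ g.p ≤ i.1 + 1 ∧ i.1 + 1 ≤ g.q := by
  simp [pts]

theorem mem_mv_flip (g : Gen n) (S : Finset (Fin n)) (i : Fin n) :
    i ∈ mv (flip g) S ↔ flipFun g i ∈ S := by
  rw [mem_mv, flip_inv]; rfl

theorem mv_flip_self (g : Gen n) : mv (flip g) (pts g) = pts g := by
  ext i
  rw [mem_mv_flip, mem_pts, mem_pts, flipFun_val]
  have := g.one_le; have := g.lt; have := g.le; have := i.2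
  split_ifs <;> omega

theorem mv_flip_disj (g h : Gen n) (hd : g.q < h.p ∨ h.q < g.p) :
    mv (flip g) (pts h) = pts h := by
  ext i
  rw [mem_mv_flip, mem_pts, mem_pts, flipFun_val]
  have := g.one_le; have := g.lt; have := g.le; have := i.2
  have := h.one_le; have := h.lt; have := h.le
  split_ifs <;> omega

theorem mv_flip_nest (g h k : Gen n) (h₁ : g.p ≤ h.p) (h₂ : h.q ≤ g.q)
    (hp : k.p = g.p + g.q - h.q) (hq : k.q = g.p + g.q - h.p) :
    mv (flip g) (pts h) = pts k := by
  ext i
  rw [mem_mv_flip, mem_pts, mem_pts, flipFun_val]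
  have := g.one_le; have := g.lt; have := g.le; have := i.2
  have := h.one_le; have := h.lt; have := h.le
  split_ifs <;> omega

theorem mv_flip_sup (g k : Gen n) (h₁ : g.p ≤ k.p) (h₂ : k.q ≤ g.q) :
    mv (flip k) (pts g) = pts g := by
  ext i
  rw [mem_mv_flip, mem_pts, mem_pts, flipFun_val]
  have := g.one_le; have := g.lt; have := g.le; have := i.2
  have := k.one_le; have := k.lt; have := k.le
  split_ifs <;> omega

theorem comp_disj (g h : Gen n) (hd : g.q < h.p ∨ h.q < g.p) : Comp (pts g) (pts h) := by
  refine Or.inr (Or.inr ?_)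
  rw [Finset.disjoint_left]
  intro i hi hi'
  rw [mem_pts] at hi hi'
  omega

theorem comp_sub (g k : Gen n) (h₁ : g.p ≤ k.p) (h₂ : k.q ≤ g.q) : Comp (pts k) (pts g) := by
  refine Or.inl ?_
  intro i hi
  rw [mem_pts] at hi ⊢
  omega

theorem act_act' (g h : Gen n) (x : P n) :
    act g (act h x) =
      (phi (pts g) (mv (flip g * flip h) x.2.1) (mv (flip g * flip h) x.2.2)
        (phi (mv (flip g) (pts h)) (mv (flip g * flip h) x.2.1) (mv (flip g * flip h) x.2.2) x.1),
        mv (flip g * flip h) x.2.1, mv (flip g * flip h) x.2.2) := by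
  unfold act
  simp only [mv_mul, phi_mv]

theorem act_act (g : Gen n) : Function.Involutive (act g) := by
  rintro ⟨z, S, T⟩
  rw [act_act', mv_flip_self, flip_mul_flip, mv_one, mv_one, phi_phi]

/-- The action of a generator as a permutation. -/
noncomputable def actP (g : Gen n) : Equiv.Perm (P n) := (act_act g).toPerm

theorem flip_disj (g h : Gen n) (hd : g.q < h.p ∨ h.q < g.p) :
    flip g * flip h = flip h * flip g := by
  rw [← rho_s', ← rho_s', ← map_mul, ← map_mul, s_disj g h hd]

theorem flip_nest (g h k : Gen n) (h₁ : g.p ≤ h.p) (h₂ : h.q ≤ g.q)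
    (hp : k.p = g.p + g.q - h.q) (hq : k.q = g.p + g.q - h.p) :
    flip g * flip h = flip k * flip g := by
  rw [← rho_s', ← rho_s', ← rho_s', ← map_mul, ← map_mul, s_nest g h k h₁ h₂ hp hq]

/-- The action of the cactus group. -/
noncomputable def Phi (n : ℕ) : Cactus n →* Equiv.Perm (P n) :=
  liftC actP (by
    intro g
    ext1 x
    exact act_act g x) (by
    intro g h hd
    ext1 x
    show act g (act h x) = act h (act g x)
    rw [act_act', act_act', mv_flip_disj g h hd, mv_flip_disj h g hd.symm, flip_disj g h hd,
      phi_comm (comp_disj g h hd)]) (by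
    intro g h k h₁ h₂ hp hq
    ext1 x
    show act g (act h x) = act k (act g x)
    have hg := g.one_le; have hg2 := g.lt
    have hh := h.one_le; have hh2 := h.lt
    rw [act_act', act_act', mv_flip_nest g h k h₁ h₂ hp hq,
      mv_flip_sup g k (by omega) (by omega), flip_nest g h k h₁ h₂ hp hq,
      phi_comm (comp_sub g k (by omega) (by omega))])

theorem Phi_s (g : Gen n) (x : P n) : Phi n (s g) x = act g x := by
  unfold Phi
  rw [liftC_s]
  rfl

/-- The composition of the reflections of a word. -/
noncomputable def F (w : List (Finset (Fin n))) (S T : Finset (Fin n)) (z : ℤ) : ℤ :=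
  w.foldr (fun I y => phi I S T y) z

theorem F_cons (I : Finset (Fin n)) (w : List (Finset (Fin n))) (S T : Finset (Fin n)) (z : ℤ) :
    F (I :: w) S T z = phi I S T (F w S T z) := rfl

theorem F_map (π : Equiv.Perm (Fin n)) (w : List (Finset (Fin n))) (S T : Finset (Fin n)) (z : ℤ) :
    F (w.map (mv π)) (mv π S) (mv π T) z = F w S T z := by
  induction w with
  | nil => rfl
  | cons I w ih => rw [List.map_cons, F_cons, F_cons, ih, phi_mv]

theorem Phi_word (L : List (Gen n)) (S T : Finset (Fin n)) (z : ℤ) :
    Phi n (word L) (z, S, T) = (F (letters L) (mv (rho n (word L)) S) (mv (rho n (word L)) T) z,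
      mv (rho n (word L)) S, mv (rho n (word L)) T) := by
  induction L with
  | nil => simp [letters_nil, F]
  | cons g L ih =>
    rw [word_cons, map_mul, Equiv.Perm.mul_apply, ih, Phi_s, letters_cons, F_cons, map_mul, rho_s']
    unfold act
    simp only [mv_mul, F_map]

theorem F_affine (w : List (Finset (Fin n))) (S T : Finset (Fin n)) (hST : ¬ Comp S T) :
    ∃ c : ℤ, (∀ z, F w S T z = (-1) ^ (w.count S + w.count T) * z + c) ∧
      (Odd (w.count T) → Odd c) ∧ (Even (w.count T) → Even c) := by
  have hne : S ≠ T := fun h => hST (h ▸ comp_refl S)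
  induction w with
  | nil => exact ⟨0, by simp [F], by simp, by simp⟩
  | cons I w ih =>
    obtain ⟨c, h1, h2, h3⟩ := ih
    by_cases hIS : I = S
    · subst hIS
      refine ⟨-c, ?_, ?_, ?_⟩
      · intro z
        rw [F_cons, h1, List.count_cons_self, List.count_cons_of_ne hne]
        simp only [phi, if_neg hST, if_true]
        rw [show w.count I + 1 + w.count T = (w.count I + w.count T) + 1 by ring, pow_succ]
        ring
      · rw [List.count_cons_of_ne hne]
        intro h; exact (h2 h).neg
      · rw [List.count_cons_of_ne hne]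
        intro h; exact (h3 h).neg
    by_cases hIT : I = T
    · subst hIT
      refine ⟨1 - c, ?_, ?_, ?_⟩
      · intro z
        rw [F_cons, h1, List.count_cons_self, List.count_cons_of_ne hIS]
        simp only [phi, if_neg hST, if_neg hIS, if_true]
        rw [show w.count S + (w.count I + 1) = (w.count S + w.count I) + 1 by ring, pow_succ]
        ring
      · rw [List.count_cons_self]
        intro h
        have h4 : Even (w.count I) := by
          by_contra hcon
          rw [Nat.not_even_iff_odd] at hcon
          exact (Nat.not_odd_iff_even.mpr (hcon.add_odd odd_one)) h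
        exact odd_one.sub_even (h3 h4)
      · rw [List.count_cons_self]
        intro h
        have h4 : Odd (w.count I) := by
          by_contra hcon
          rw [Nat.not_odd_iff_even] at hcon
          exact (Nat.not_even_iff_odd.mpr (hcon.add_odd odd_one)) h
        exact odd_one.sub_odd (h2 h4)
    · refine ⟨c, ?_, ?_, ?_⟩
      · intro z
        rw [F_cons, h1, List.count_cons_of_ne hIS, List.count_cons_of_ne hIT]
        simp only [phi, if_neg hST, if_neg hIS, if_neg hIT]
      · rw [List.count_cons_of_ne hIT]; exact h2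
      · rw [List.count_cons_of_ne hIT]; exact h3

theorem cross : GoalCross := by
  intro n L k hk hrho hpow S T hST ⟨hS, hT⟩
  obtain ⟨c, h1, h2, -⟩ := F_affine (letters L) S T hST
  have hc : Odd c := h2 hT
  have hF : ∀ z, F (letters L) S T z = z + c := by
    intro z
    rw [h1, (hS.add_odd hT).neg_one_pow, one_mul]
  have hstep : ∀ z, Phi n (word L) (z, S, T) = (z + c, S, T) := by
    intro z
    rw [Phi_word, hrho]
    simp only [mv_one, hF]
  have hiter : ∀ j : ℕ, ∀ z, Phi n (word L ^ j) (z, S, T) = (z + j * c, S, T) := by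
    intro j
    induction j with
    | zero => intro z; simp
    | succ j ih =>
      intro z
      rw [pow_succ, map_mul, Equiv.Perm.mul_apply, hstep, ih]
      congr 1
      push_cast
      ring
  have h4 := hiter k 0
  rw [hpow, map_one, Equiv.Perm.one_apply] at h4
  have h5 : (0 : ℤ) = 0 + k * c := congrArg Prod.fst h4
  have h6 : (k : ℤ) ≠ 0 := by exact_mod_cast hk.ne'
  have h7 : c = 0 := by
    rcases mul_eq_zero.mp (show (k : ℤ) * c = 0 by linarith) with h | h
    · exact absurd h h6
    · exact h
  rw [h7] at hc
  exact absurd hc (by decide)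

end Pool.Agent.Helper67.CT
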